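import Pool.Agent.L0h9.SCF.Equ2

/-!
# Families of superelliptic curves without sections over all extensions of degree prime to `ℓ`

Let `k` be any field finitely generated over `ℚ`, that is, the fraction field of a domain `R` of
characteristic zero that is finitely generated as a ring.  Let `ℓ` be a prime number and let
`h ∈ k[x]` be a separable polynomial such that for some `σ ∈ Gal(k̄/k)` the lengths of all orbits of
`σ` on the roots of `h` are divisible by `ℓ`.  Let `g(t; x)` be a polynomial in `x` whose coefficients
are arbitrary polynomials over `k` in the parameters `t = (t₁, …, t_r)`, `r ≥ 0`.  We suppose that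
there is a Galois equivariant map from the roots of the generic member `g` to the roots of `h`: there
is a polynomial `φ ∈ k(t)[x]` such that `g` divides `h(φ(x))` in `k(t)[x]`.  We also suppose that the
degree of `g` in `x` is at most `d`, where `d ≥ 3`, and that one of the polynomials `g(t; x)`,
`t ∈ k^r`, is separable of degree `d`.  Consider the curves

  `a yⁿ = g(t; x)`,  `a, t₁, …, t_r ∈ R`,  `n` divisible by `ℓ`.

We prove that for all vectors `(a, t)` outside a set of density zero, for all these `n` and ALL
finite extensions `K` of `k` whose degree is prime to `ℓ`, the curve has no point over `K`, and its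
fundamental group has no section over the absolute Galois group of `K`, also when any set of closed
points of the curve is removed.  So 100% of these curves, and all smooth curves that dominate one of
them, satisfy the section conjecture over all finite extensions of `k` of degree prime to `ℓ` at the
same time; the exceptional set does not depend on `K`.  Moreover already the geometrically pro-`ℓ`
fundamental group of the curve with `n = ℓ` has no section over these fields `K`.  The set of the
exceptional vectors has density zero in a strong sense: for every `ε > 0` there is an ideal `I` of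
`R` of finite index such that the exceptional vectors lie in at most `ε #(R/I)^(r+1)` residue
classes modulo `I`.

Examples.  (1) Twists: `r = 0`, `g = h`, `φ = x`, the curves `a yⁿ = h(x)`.  For instance `h` may be
any irreducible polynomial whose degree `≥ 3` is a power of `ℓ`, since a transitive group of degree
`ℓ^m` contains an element of `ℓ`-power order without fixed points.  (2) Norms: let `L/k` be a finite
extension such that some `σ` has only orbits of length divisible by `ℓ` on the embeddings of `L` in
`k̄`, for instance any extension of degree `ℓ^m`, `m ≥ 1`, and let `g = N_{L/k} G` for any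
polynomial `G` over `L` in `t` and `x` (with `g` generically separable).  So for `ℓ = 2` one has the
families `a yⁿ = P(t; x)² - c Q(t; x)²`, `c ∈ k` not a square, `n` even, for arbitrary polynomials
`P` and `Q`.  A condition of this kind is necessary: the curve `a yⁿ = f(x)` has points over an
extension of degree prime to `ℓ` for all `a` if `f` has an irreducible factor of degree prime to `ℓ`.

The results of the starting library on the twists `a yⁿ = h(x)` (`MP_e66f84_ag/FunctionFieldTwists`,
`SuperellipticTwists`) are over the field `k` itself and without parameters.  The theorem in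
`PrimeToEllExtensions.lean` is about the complete family, where the obstruction is not given by a
fixed polynomial `h`.

The fundamental group is described through valuations.  Let `U` be a smooth geometrically connected
curve over `K` with function field `F`, let `Ω` be an algebraic closure of `F`, and let `F_U` be the
maximal extension of `F` inside `Ω` which is unramified over the closed points of `U`, that is, over
their local rings, which are valuation rings of `F`.  Then `π₁(U) = Gal(F_U/F)`, and the map
`π₁(U) → G_K` is the restriction of automorphisms to the algebraic closure of `K` in `Ω`.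

Proof.  Let `Z` be the set of the roots of `h` and choose an integer `c` such that the numbers
`η(T) = ∏ (c - θ)`, `θ ∈ T`, are different for different subsets `T` of `Z`.  Let `Q` be the
polynomial whose roots are the `η(T)` for the sets `T` of order prime to `ℓ`.  It has coefficients in
`k`, and `σ` fixes no root of `Q`: if `σ(η(T)) = η(T)` then `σ(T) = T`, and the order of `T` is
divisible by `ℓ`.  If the reduction of `Q` at a homomorphism from `R` to a finite field `κ` has no
root in `κ`, then the reduction of `h` has no irreducible factor of degree prime to `ℓ`: the value of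
such a factor at `c` would be the reduction of some `η(T)`.  As in the starting library one
finds a number field `L`, a homomorphism `P : R → L` and, for almost all primes `v` of `L`,
embeddings of `k` in the completion `L_v` that are congruent to `P` on `R` modulo `v²`.  By
Chebotarev's theorem `Q` has no root modulo `v` for a set of primes with divergent sum of `1/N v`,
and for 100% of the vectors there is such a `v` for which `a` is a uniformiser and `t` is outside a
hypersurface modulo `v`.  Then all irreducible factors of the reduction of `g(t; x)` have degrees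
divisible by `ℓ`, by the polynomial `φ`.  This gives a discrete valuation ring `A` of `k`, where `a` is
a uniformiser.  Let `K/k` be a finite extension of degree prime to `ℓ` and let `B` be the integral
closure of `A` in `K`.  By the fundamental identity `∑ e f = [K : k]` there is a prime of `B` for
which `e` and `f` are prime to `ℓ`.  So the valuation of `a` at this prime is prime to `ℓ`, and the
reduction of `g(t; x)` has no root in the residue field.  The local theorem of the starting library
for the pro-`ℓ` fundamental group, which is based on the action of inertia on the good reduction, can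
be applied over `K`.
-/

open Polynomial

namespace Pool.Agent.Results.MP_c1dca2_ag.EquivariantFamilies

section definitions

variable (ℓ : ℕ) (k F Ω : Type) [Field k] [Field F] [Field Ω] [Algebra k F] [Algebra F Ω]
  [Algebra k Ω]

/-- The inertia group of the valuation ring `W` of `Ω`, as a subgroup of `Gal(Ω/F)`: the
automorphisms of `Ω` over `F` that map `W` onto itself and act as the identity on its residue
field. -/
noncomputable def inertia (W : ValuationSubring Ω) : Subgroup (Ω ≃ₐ[F] Ω) :=
  (W.inertiaSubgroup F).map (W.decompositionSubgroup F).subtype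

/-- `F_U`, for a set `U` of valuation rings of `F`: the elements of `Ω` fixed by the inertia groups
of all valuation rings `W` of `Ω` with `W ∩ F ∈ U`.  If `Ω` is an algebraic closure of a field `F`
of characteristic zero, this is the maximal extension of `F` in `Ω` unramified over `U`. -/
noncomputable def unramified (U : Set (ValuationSubring F)) : IntermediateField F Ω :=
  ⨅ W : {W : ValuationSubring Ω // W.comap (algebraMap F Ω) ∈ U},
    IntermediateField.fixedField (inertia F Ω W.1)

/-- `k̄ F`, the compositum of `F` and of the algebraic closure of `k` in `Ω`. -/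
noncomputable def geomField : IntermediateField F Ω :=
  IntermediateField.adjoin F (algebraicClosure k Ω : Set Ω)

/-- The algebraic extension `L` of `K` in `Ω` is unramified at all valuation rings of `Ω` that
contain `k`: every nonzero element of `L` has the same valuation as an element of `K`.  (If `K` is
a function field of one variable over the algebraic closure of `k` and `k` has characteristic zero,
then this says that `L/K` is unramified over all points of the smooth projective curve.) -/
def Unramified {k K Ω : Type} [Field k] [Field K] [Field Ω] [Algebra k Ω] [Algebra K Ω]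
    (L : IntermediateField K Ω) : Prop :=
  ∀ W : ValuationSubring Ω, (∀ c : k, algebraMap k Ω c ∈ W) → ∀ z ∈ L, z ≠ 0 →
    ∃ t : K, t ≠ 0 ∧ z / algebraMap K Ω t ∈ W ∧ (z / algebraMap K Ω t)⁻¹ ∈ W

/-- `L/K` is a finite Galois extension whose degree is a power of `ℓ`. -/
def FiniteProEll (ℓ : ℕ) {K Ω : Type} [Field K] [Field Ω] [Algebra K Ω]
    (L : IntermediateField K Ω) : Prop :=
  FiniteDimensional K L ∧ IsGalois K L ∧ ∃ m : ℕ, Module.finrank K L = ℓ ^ m

/-- The maximal unramified pro-`ℓ` extension of `K` in `Ω`: the compositum of the finite Galois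
extensions of `K` whose degree is a power of `ℓ` and which are unramified. -/
noncomputable def maxProEll (ℓ : ℕ) (k K Ω : Type) [Field k] [Field K] [Field Ω] [Algebra k Ω]
    [Algebra K Ω] : IntermediateField K Ω :=
  ⨆ L : {L : IntermediateField K Ω // FiniteProEll ℓ L ∧ Unramified (k := k) L}, L.1

/-- `M`, the maximal unramified pro-`ℓ` extension of `k̄ F` in `Ω`, as an extension of `F`. -/
noncomputable def proEllField : IntermediateField F Ω :=
  (maxProEll ℓ k (geomField k F Ω) Ω).restrictScalars F

/-- The map `τ : M → M` acts as `σ : K → K` on the elements that the fields `K` and `M` have in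
common when they are regarded as subfields of `Ω` through `i` and `j`. -/
def ActsAs {K M Ω : Type} [Field K] [Field M] [Field Ω] (i : K →+* Ω) (j : M →+* Ω) (σ : K → K)
    (τ : M → M) : Prop :=
  ∀ c z, j z = i c → j (τ z) = i (σ c)

/-- Let `k ⊆ K ⊆ Ω` and `F ⊆ N ⊆ Ω` be fields.  A splitting of `Gal(N/F) → Gal(K/k)`: a continuous
homomorphism `s` from `Gal(K/k)` to `Gal(N/F)` such that `s(σ)` acts as `σ` on the elements of
`K ∩ N`. -/
structure Splitting (K N : Type) [Field K] [Field N] [Algebra k K] [Algebra F N] [Algebra K Ω]
    [Algebra N Ω] where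
  /-- the homomorphism `Gal(K/k) → Gal(N/F)` -/
  toHom : (K ≃ₐ[k] K) →* (N ≃ₐ[F] N)
  cont : Continuous toHom
  compat : ∀ σ : K ≃ₐ[k] K, ActsAs (algebraMap K Ω) (algebraMap N Ω) σ (toHom σ)

/-- There are no sections of `Gal(N/F) → G_k`, where `G_k = Gal(k̄/k)` and `k̄` is the algebraic
closure of `k` in `Ω`.  For `N = F_U` these are the sections of `π₁(U) → G_k`. -/
def NoSplitting (N : IntermediateField F Ω) : Prop :=
  IsEmpty (Splitting k F Ω (algebraicClosure k Ω) N)

end definitions

section curves

variable {k : Type} [Field k]

/-- The smooth projective curve with the affine equation `a yⁿ = f(x)`, for a separable polynomial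
`f`, has no point over `k`: neither in the affine part nor at infinity. -/
def NoPoint (n : ℕ) (a : k) (f : k[X]) : Prop :=
  (¬ ∃ x y : k, a * y ^ n = f.eval x) ∧
    ¬ ∃ r : k, a * r ^ Nat.gcd n f.natDegree = f.leadingCoeff

/-- Let `F` be any field over `k` that contains a point `(x, y)` of the curve `a yⁿ = f(x)`, for
instance the function field of the curve, and let `Ω` be an algebraic closure of `F`.  Then for
every set `U` of valuation rings of `F` over `k` there is no section of `π₁(U) → G_k`.  If `F` is the
function field of the curve, such `U` are given by the smooth projective curve and by all its open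
subcurves. -/
def NoSection (n : ℕ) (a : k) (f : k[X]) : Prop :=
  ∀ (F Ω : Type) [Field F] [Field Ω] [Algebra k F] [Algebra F Ω] [Algebra k Ω]
    [IsScalarTower k F Ω] [IsAlgClosure F Ω] (x y : F) (U : Set (ValuationSubring F)),
    algebraMap k F a * y ^ n = aeval x f → (∀ O ∈ U, ∀ c : k, algebraMap k F c ∈ O) →
      NoSplitting k F Ω (unramified F Ω U)

/-- Let `F = k(x, y)` be the function field of the curve `a y^ℓ = f(x)`, let `Ω` be an algebraic
closure of `F`, and let `M` be the maximal unramified pro-`ℓ` extension of `k̄ F`.  For all
extensions `N ⊇ M` of `F` in `Ω`, in particular for `N = M`, there is no section of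
`Gal(N/F) → G_k`. -/
def NoProEllSection (ℓ : ℕ) (a : k) (f : k[X]) : Prop :=
  ∀ (F Ω : Type) [Field F] [Field Ω] [Algebra k F] [Algebra F Ω] [Algebra k Ω]
    [IsScalarTower k F Ω] [IsAlgClosure F Ω] (x y : F), Transcendental k x →
    algebraMap k F a * y ^ ℓ = aeval x f →
    IntermediateField.adjoin k {x, y} = (⊤ : IntermediateField k F) →
    ∀ N : IntermediateField F Ω, proEllField ℓ k F Ω ≤ N → NoSplitting k F Ω N

/-- All the assertions on the curves `a yⁿ = f(x)` over `k` and the prime number `ℓ`: for all `n ≥ 1`
divisible by `ℓ` and all finite extensions `K` of `k` of degree prime to `ℓ`, the curve has neither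
points nor sections over `K`, and the geometrically pro-`ℓ` fundamental group of the curve with
`n = ℓ` has no section over `K`. -/
def NothingPrimeTo {k : Type} [Field k] (ℓ : ℕ) (a : k) (f : k[X]) : Prop :=
  ∀ (K : Type) [Field K] [Algebra k K], FiniteDimensional k K → ¬ ℓ ∣ Module.finrank k K →
    (∀ n : ℕ, 0 < n → ℓ ∣ n → NoPoint n (algebraMap k K a) (f.map (algebraMap k K)) ∧
      NoSection n (algebraMap k K a) (f.map (algebraMap k K))) ∧
    NoProEllSection ℓ (algebraMap k K a) (f.map (algebraMap k K))

/-- For some `σ ∈ Gal(k̄/k)` the lengths of all orbits of `σ` on the roots of `h` are divisible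
by `ℓ`: if `σ^j` fixes a root, then `j` is divisible by `ℓ`. -/
def OrbitsDivisible (ℓ : ℕ) (h : k[X]) : Prop :=
  ∃ σ : AlgebraicClosure k ≃ₐ[k] AlgebraicClosure k,
    ∀ θ : AlgebraicClosure k, aeval θ h = 0 → ∀ j : ℕ, (σ ^ j) θ = θ → ℓ ∣ j

/-- The polynomial `g(t; x)`, where `g` is a polynomial in `x` whose coefficients are polynomials in
`r` variables. -/
noncomputable def member {r : ℕ} (g : (MvPolynomial (Fin r) k)[X]) (t : Fin r → k) : k[X] :=
  g.map (MvPolynomial.eval t)

/-- The polynomial `g`, with its coefficients regarded as elements of the field `k(t)` of rational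
functions in `r` variables. -/
noncomputable def generic {r : ℕ} (g : (MvPolynomial (Fin r) k)[X]) :
    (FractionRing (MvPolynomial (Fin r) k))[X] :=
  g.map (algebraMap (MvPolynomial (Fin r) k) (FractionRing (MvPolynomial (Fin r) k)))

/-- There is a polynomial `φ ∈ k(t)[x]` such that `g` divides `h(φ(x))` in `k(t)[x]`: the values of
`φ` at the roots of `g` are roots of `h`. -/
def MapsTo {r : ℕ} (g : (MvPolynomial (Fin r) k)[X]) (h : k[X]) : Prop :=
  ∃ φ : (FractionRing (MvPolynomial (Fin r) k))[X],
    generic g ∣ (h.map (algebraMap k (FractionRing (MvPolynomial (Fin r) k)))).comp φ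

end curves

/-- The vectors `c = (a, t₁, …, t_r)` of elements of `R` that do not have the following property:
`a ≠ 0`, the polynomial `f = g(t; x)` is separable of degree `d`, and the assertions of
`NothingPrimeTo` are true for the curves `a yⁿ = f(x)`. -/
def Exceptional (R : Type) [CommRing R] {k : Type} [Field k] [Algebra R k] (ℓ d : ℕ) {r : ℕ}
    (g : (MvPolynomial (Fin r) k)[X]) : Set (Fin (r + 1) → R) :=
  {c | ¬ ∀ (a : k) (f : k[X]), a = algebraMap R k (c 0) →
    f = member g (fun j => algebraMap R k (c j.succ)) →
    a ≠ 0 ∧ f.natDegree = d ∧ f.Separable ∧ NothingPrimeTo ℓ a f}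

/-- Density zero: for every `ε > 0` there is an ideal `I` of `R` of finite index such that `E` lies
in at most `ε #(R/I)ᴺ` residue classes modulo `I`. -/
def DensityZero {R : Type} [CommRing R] {N : ℕ} (E : Set (Fin N → R)) : Prop :=
  ∀ ε : ℝ, 0 < ε → ∃ I : Ideal R, Finite (R ⧸ I) ∧
    (Set.ncard ((fun (t : Fin N → R) i => Ideal.Quotient.mk I (t i)) '' E) : ℝ) ≤
      ε * (Nat.card (R ⧸ I) : ℝ) ^ N

section proof

lemma iSup_congr_prop {α : Type} [CompleteLattice α] {P Q : α → Prop} (h : ∀ L, P L ↔ Q L) :
    (⨆ L : {L // P L}, L.1) = ⨆ L : {L // Q L}, L.1 := by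
  have h1 : P = Q := funext fun L => propext (h L)
  subst h1
  rfl

lemma proEll_eq (ℓ : ℕ) (k F Ω : Type) [Field k] [Field F] [Field Ω] [Algebra k F] [Algebra F Ω]
    [Algebra k Ω] : proEllField ℓ k F Ω = Pool.Agent.Y157.PS.geomPro ℓ k F Ω := by
  unfold proEllField Pool.Agent.Y157.PS.geomPro maxProEll Pool.Agent.Y157.PS.maxPro
  congr 1
  refine iSup_congr_prop fun L => ?_
  constructor
  · rintro ⟨⟨h1, h2, h3⟩, h4⟩
    refine ⟨⟨h1, h2, h3⟩, fun W hW z hz hz0 => ?_⟩
    obtain ⟨t, ht, h5, h6⟩ := h4 W hW z hz hz0
    exact ⟨t, ht, div_ne_zero hz0 ((_root_.map_ne_zero _).2 ht), h5, h6⟩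
  · rintro ⟨⟨h1, h2, h3⟩, h4⟩
    refine ⟨⟨h1, h2, h3⟩, fun W hW z hz hz0 => ?_⟩
    obtain ⟨t, ht, -, h5, h6⟩ := h4 W hW z hz hz0
    exact ⟨t, ht, h5, h6⟩

lemma of_fine {k : Type} [Field k] (l : ℕ) (a : k) (f : k[X])
    (h : Pool.Agent.Y157.PS.FineP l a f) (n : ℕ) (hn : l ∣ n) (hd : l ∣ f.natDegree) :
    NoPoint n a f ∧ NoSection n a f := by
  obtain ⟨-, h1, h2, h3⟩ := h
  obtain ⟨n', rfl⟩ := hn
  refine ⟨⟨?_, ?_⟩, ?_⟩
  · rintro ⟨x, y, hxy⟩
    apply h2 x (y ^ n')
    rw [← hxy, ← pow_mul, mul_comm n' l]
  · rintro ⟨r, hr⟩
    obtain ⟨e, he⟩ := Nat.dvd_gcd (Dvd.intro n' rfl : l ∣ l * n') hd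
    apply h3 (r ^ e)
    rw [← hr, ← pow_mul, mul_comm e l, he]
  · intro F Ω _ _ _ _ _ _ _ x y U hxy hU
    have hcl : IsAlgClosed Ω := IsAlgClosure.isAlgClosed F
    have halg : Algebra.IsAlgebraic F Ω := IsAlgClosure.isAlgebraic
    have h4 := h1 F Ω U hU x (y ^ n') (by rw [← hxy, ← pow_mul, mul_comm n' l])
    exact ⟨fun s => h4.false ⟨s.toHom, s.cont, s.compat⟩⟩

lemma pro_of_fine {k : Type} [Field k] (ℓ : ℕ) (a : k) (f : k[X])
    (h : Pool.Agent.Y157.PS.FineP ℓ a f) : NoProEllSection ℓ a f := by
  intro F Ω _ _ _ _ _ _ _ x y hx hxy hF N hN
  have hcl : IsAlgClosed Ω := IsAlgClosure.isAlgClosed F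
  have halg : Algebra.IsAlgebraic F Ω := IsAlgClosure.isAlgebraic
  rw [proEll_eq] at hN
  exact ⟨fun s => h.1 F Ω x y hx hxy hF N hN s.toHom s.cont s.compat⟩

end proof

/-- Let `R` be a domain of characteristic zero that is finitely generated as a ring, with fraction
field `k`; so `k` is any field finitely generated over `ℚ`.  Let `ℓ` be a prime number and let
`h ∈ k[x]` be a separable polynomial such that for some `σ ∈ Gal(k̄/k)` the lengths of all orbits of
`σ` on the roots of `h` are divisible by `ℓ`.  Let `d ≥ 3`, `r ≥ 0`, and let `g` be a polynomial in `x`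
of degree at most `d`, whose coefficients are polynomials over `k` in `t = (t₁, …, t_r)`, such that
one of the polynomials `g(t; x)`, `t ∈ k^r`, is separable of degree `d` and such that `g` divides
`h(φ(x))` in `k(t)[x]` for some `φ ∈ k(t)[x]`.  Then for all vectors `(a, t₁, …, t_r)` of elements of
`R` outside a set of density zero, `a ≠ 0`, the polynomial `f = g(t; x)` is separable of degree `d`,
and for all `n ≥ 1` divisible by `ℓ` and all finite extensions `K` of `k` whose degree is prime to
`ℓ` the smooth projective curve with the affine equation `a yⁿ = f(x)` has no point over `K`, and the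
fundamental groups of its open subcurves and of all smooth curves over `K` that dominate it have no
sections over the absolute Galois group of `K`; and the geometrically pro-`ℓ` fundamental group of
the curve with `n = ℓ` has no section over the absolute Galois group of `K`. -/
theorem result (R : Type) [CommRing R] [IsDomain R] [CharZero R] [Algebra.FiniteType ℤ R]
    (k : Type) [Field k] [Algebra R k] [IsFractionRing R k] (ℓ : ℕ) (hℓ : ℓ.Prime) (h : k[X])
    (hh : h.Separable) (hor : OrbitsDivisible ℓ h) (d r : ℕ) (hd : 3 ≤ d)
    (g : (MvPolynomial (Fin r) k)[X]) (hdeg : g.natDegree ≤ d)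
    (hsep : ∃ t : Fin r → k, (member g t).natDegree = d ∧ (member g t).Separable)
    (hmap : MapsTo g h) :
    DensityZero (Exceptional R ℓ d g) := by
  intro ε hε
  obtain ⟨σ, hσ⟩ := hor
  obtain ⟨φ, hφ⟩ := hmap
  obtain ⟨I, hI, hIE⟩ := Pool.Agent.L0h9.SCF.equ_density (R := R) ℓ hℓ d r hd g hdeg hsep h hh σ hσ
    φ hφ ε hε
  refine ⟨I, hI, le_trans ?_ hIE⟩
  have hsub : (Exceptional R ℓ d g : Set (Fin (r + 1) → R)) ⊆
      {c : Fin (r + 1) → R | ¬ Pool.Agent.L0h9.SCF.GoodF ℓ d g c} := by
    intro c hc hgood
    apply hc
    intro a f ha hf
    have hf' : f = Pool.Agent.L0h9.SCF.mbE g c := hf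
    obtain ⟨g1, g2, g3, g4, g5⟩ := hgood
    rw [← hf'] at g2 g3 g5
    rw [← ha] at g1 g5
    refine ⟨g1, g2, g3, fun K _ _ hK hK' => ?_⟩
    have h1 := g5 K hK'
    exact ⟨fun n _ hn => of_fine ℓ _ _ h1 n hn (by rwa [natDegree_map, g2]),
      pro_of_fine ℓ _ _ h1⟩
  exact_mod_cast Set.ncard_le_ncard (Set.image_mono hsub) (Set.toFinite _)

end Pool.Agent.Results.MP_c1dca2_ag.EquivariantFamilies
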