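import Pool.Agent.L0h9.SCF.FamQ

/-!
# The section conjecture for 100% of the curves of a family that is linear in two parameters

Let `k` be any field finitely generated over `ℚ`, that is, the fraction field of a domain `R` of
characteristic zero that is finitely generated as a ring.  Let `d ≥ 3` and let `g₀, g₁, g₂` be
polynomials of degree at most `d` in `x` whose coefficients are arbitrary polynomials over `k` in the
parameters `s = (s₁, …, s_r)`, `r ≥ 0`.  Consider the curves

  `a yⁿ = g₀(s; x) + t₁ g₁(s; x) + t₂ g₂(s; x)`,  `n ≥ 2` not coprime to `d`,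

where the parameters `a, t₁, t₂, s₁, …, s_r` are elements of `R`.  (If `n` and `d` are coprime, the
curve has a rational point at infinity.)  Suppose that

* one of the polynomials `g₀ + t₁ g₁ + t₂ g₂` (`t₁, t₂, sᵢ ∈ k`) is separable of degree `d`,
* `g₀, g₁, g₂` are linearly independent over `k(s)`, and
* the ideal `(g₀, g₁, g₂)` of `k(s)[x]` contains a separable polynomial `h ∈ k[x]` such that some
  element of `Gal(k̄/k)` fixes no root of `h`; for instance `h = 1`, if `g₀, g₁, g₂` are coprime.

We prove that for all `(a, t₁, t₂, s)` outside a set of density zero, for all these `n` at once, the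
curve has no point over `k`, and its fundamental group has no section, also when any set of closed
points of the curve is removed.  So 100% of these curves, and all smooth curves over `k` that
dominate one of them, satisfy the section conjecture.  Moreover, for all prime numbers `ℓ` that
divide `d` already the geometrically pro-`ℓ` fundamental group of the curve with `n = ℓ` has no
section.  The set of the exceptional vectors has density zero in a strong sense: for every `ε > 0`
there is an ideal `I` of `R` of finite index such that the exceptional vectors lie in at most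
`ε #(R/I)^(r+3)` residue classes modulo `I`.

Examples: (1) all affine linear families `g₀ + t₁ g₁ + … + t_m g_m`, `gᵢ ∈ k[x]`, that are not
contained in a pencil and have a separable member of degree `d`, if some element of `Gal(k̄/k)` fixes
no common zero of the `gᵢ`.  (2) All but two coefficients of the polynomial are fixed: the curves
`a yⁿ = f(x) + t₁ x^i + t₂ x^j` for fixed `f` with `f(0) ≠ 0` that is not a linear combination of
`x^i` and `x^j`, as soon as one of the polynomials is separable of degree `d`.  (3) Sparse families such
as the trinomials `a yⁿ = c₀ + c₁ x^i + c₂ x^d`, and families with arbitrary polynomial relations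
between the other coefficients.  The theorem in `MP_e66f84_ag/SuperellipticFamilies.lean` of the
starting library is the case of the complete family, where all the `d + 1` coefficients vary
independently; it counts the irreducible polynomials over finite fields, which is not possible for
the sparse families considered here (if `h` is not constant, all the members are reducible).

The fundamental group is described through valuations.  Let `U` be a smooth geometrically connected
curve over `k` with function field `F`, let `Ω` be an algebraic closure of `F`, and let `F_U` be the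
maximal extension of `F` inside `Ω` which is unramified over the closed points of `U`, that is, over
their local rings, which are valuation rings of `F`.  Then `π₁(U) = Gal(F_U/F)`, and the map
`π₁(U) → G_k` is the restriction of automorphisms to the algebraic closure of `k` in `Ω`.

Proof.  As in the starting library one finds a number field `L`, a homomorphism `P : R → L` and, for
almost all primes `v` of `L`, embeddings of `k` in the completion `L_v` that are congruent to `P` on
`R` modulo `v²`, so that one gets reductions `R → κ = κ(v)`; for a set of primes with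
divergent sum of `1/N v` the polynomial `h` has no root in `κ`, by Chebotarev's theorem.  By the local
theorem for the pro-`ℓ` fundamental group of the starting library, which is based on the action
of inertia on the good reduction, it suffices that the valuation of `a` is one and that the reduced
polynomial is separable of degree `d` without a root in `κ`.  The main point is the lower bound for
the number of these polynomials.  Fix `s ∈ κ^r` outside a hypersurface, and let
`N(t)`, `t ∈ κ²`, be the number of roots of the member.  The mean of `N` is at most `1`, because the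
`gᵢ` have no common root in `κ`, and the mean of `N(N - 1)` is at least `1 - O(1/q)`, `q = #κ`,
because `(g₁ : g₂)` is not constant.  If the member is not zero, then `N ≤ d` and
`1 - N + N(N - 1)/d ≤ 0` unless `N = 0`.  So the proportion of the `t` with `N(t) = 0` is at least
`1/d - O(1/q)`; for large `q` no member vanishes identically, by the linear independence of
`g₀, g₁, g₂`.  The members which are not separable of degree `d` are on the hypersurface given by
the discriminant.
-/

open Polynomial

namespace Pool.Agent.Results.MP_c1dca2_ag.TwoLinearParameters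

section definitions

variable (ℓ : ℕ) (k F Ω : Type) [Field k] [Field F] [Field Ω] [Algebra k F] [Algebra F Ω]
  [Algebra k Ω]

/-- The inertia group of the valuation ring `W` of `Ω`, as a subgroup of `Gal(Ω/F)`: the
automorphisms of `Ω` over `F` that map `W` onto itself and act as the identity on its residue
field. -/
noncomputable def inertia (W : ValuationSubring Ω) : Subgroup (Ω ≃ₐ[F] Ω) :=
  (W.inertiaSubgroup F).map (W.decompositionSubgroup F).subtype

/-- `F_U`, for a set `U` of valuation rings of `F`: the elements of `Ω` fixed by the inertia groups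
of all valuation rings `W` of `Ω` with `W ∩ F ∈ U`.  If `Ω` is an algebraic closure of a field `F`
of characteristic zero, this is the maximal extension of `F` in `Ω` unramified over `U`. -/
noncomputable def unramified (U : Set (ValuationSubring F)) : IntermediateField F Ω :=
  ⨅ W : {W : ValuationSubring Ω // W.comap (algebraMap F Ω) ∈ U},
    IntermediateField.fixedField (inertia F Ω W.1)

/-- `k̄ F`, the compositum of `F` and of the algebraic closure of `k` in `Ω`. -/
noncomputable def geomField : IntermediateField F Ω :=
  IntermediateField.adjoin F (algebraicClosure k Ω : Set Ω)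

/-- The algebraic extension `L` of `K` in `Ω` is unramified at all valuation rings of `Ω` that
contain `k`: every nonzero element of `L` has the same valuation as an element of `K`.  (If `K` is
a function field of one variable over the algebraic closure of `k` and `k` has characteristic zero,
then this says that `L/K` is unramified over all points of the smooth projective curve.) -/
def Unramified {k K Ω : Type} [Field k] [Field K] [Field Ω] [Algebra k Ω] [Algebra K Ω]
    (L : IntermediateField K Ω) : Prop :=
  ∀ W : ValuationSubring Ω, (∀ c : k, algebraMap k Ω c ∈ W) → ∀ z ∈ L, z ≠ 0 →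
    ∃ t : K, t ≠ 0 ∧ z / algebraMap K Ω t ∈ W ∧ (z / algebraMap K Ω t)⁻¹ ∈ W

/-- `L/K` is a finite Galois extension whose degree is a power of `ℓ`. -/
def FiniteProEll (ℓ : ℕ) {K Ω : Type} [Field K] [Field Ω] [Algebra K Ω]
    (L : IntermediateField K Ω) : Prop :=
  FiniteDimensional K L ∧ IsGalois K L ∧ ∃ m : ℕ, Module.finrank K L = ℓ ^ m

/-- The maximal unramified pro-`ℓ` extension of `K` in `Ω`: the compositum of the finite Galois
extensions of `K` whose degree is a power of `ℓ` and which are unramified. -/
noncomputable def maxProEll (ℓ : ℕ) (k K Ω : Type) [Field k] [Field K] [Field Ω] [Algebra k Ω]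
    [Algebra K Ω] : IntermediateField K Ω :=
  ⨆ L : {L : IntermediateField K Ω // FiniteProEll ℓ L ∧ Unramified (k := k) L}, L.1

/-- `M`, the maximal unramified pro-`ℓ` extension of `k̄ F` in `Ω`, as an extension of `F`. -/
noncomputable def proEllField : IntermediateField F Ω :=
  (maxProEll ℓ k (geomField k F Ω) Ω).restrictScalars F

/-- The map `τ : M → M` acts as `σ : K → K` on the elements that the fields `K` and `M` have in
common when they are regarded as subfields of `Ω` through `i` and `j`. -/
def ActsAs {K M Ω : Type} [Field K] [Field M] [Field Ω] (i : K →+* Ω) (j : M →+* Ω) (σ : K → K)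
    (τ : M → M) : Prop :=
  ∀ c z, j z = i c → j (τ z) = i (σ c)

/-- Let `k ⊆ K ⊆ Ω` and `F ⊆ N ⊆ Ω` be fields.  A splitting of `Gal(N/F) → Gal(K/k)`: a continuous
homomorphism `s` from `Gal(K/k)` to `Gal(N/F)` such that `s(σ)` acts as `σ` on the elements of
`K ∩ N`. -/
structure Splitting (K N : Type) [Field K] [Field N] [Algebra k K] [Algebra F N] [Algebra K Ω]
    [Algebra N Ω] where
  /-- the homomorphism `Gal(K/k) → Gal(N/F)` -/
  toHom : (K ≃ₐ[k] K) →* (N ≃ₐ[F] N)
  cont : Continuous toHom
  compat : ∀ σ : K ≃ₐ[k] K, ActsAs (algebraMap K Ω) (algebraMap N Ω) σ (toHom σ)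

/-- There are no sections of `Gal(N/F) → G_k`, where `G_k = Gal(k̄/k)` and `k̄` is the algebraic
closure of `k` in `Ω`.  For `N = F_U` these are the sections of `π₁(U) → G_k`. -/
def NoSplitting (N : IntermediateField F Ω) : Prop :=
  IsEmpty (Splitting k F Ω (algebraicClosure k Ω) N)

end definitions

section curves

variable {k : Type} [Field k]

/-- The smooth projective curve with the affine equation `a yⁿ = f(x)`, for a separable polynomial
`f`, has no point over `k`: neither in the affine part nor at infinity. -/
def NoPoint (n : ℕ) (a : k) (f : k[X]) : Prop :=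
  (¬ ∃ x y : k, a * y ^ n = f.eval x) ∧
    ¬ ∃ r : k, a * r ^ Nat.gcd n f.natDegree = f.leadingCoeff

/-- Let `F` be any field over `k` that contains a point `(x, y)` of the curve `a yⁿ = f(x)`, for
instance the function field of the curve, and let `Ω` be an algebraic closure of `F`.  Then for
every set `U` of valuation rings of `F` over `k` there is no section of `π₁(U) → G_k`.  If `F` is the
function field of the curve, such `U` are given by the smooth projective curve and by all its open
subcurves. -/
def NoSection (n : ℕ) (a : k) (f : k[X]) : Prop :=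
  ∀ (F Ω : Type) [Field F] [Field Ω] [Algebra k F] [Algebra F Ω] [Algebra k Ω]
    [IsScalarTower k F Ω] [IsAlgClosure F Ω] (x y : F) (U : Set (ValuationSubring F)),
    algebraMap k F a * y ^ n = aeval x f → (∀ O ∈ U, ∀ c : k, algebraMap k F c ∈ O) →
      NoSplitting k F Ω (unramified F Ω U)

/-- Let `F = k(x, y)` be the function field of the curve `a y^ℓ = f(x)`, let `Ω` be an algebraic
closure of `F`, and let `M` be the maximal unramified pro-`ℓ` extension of `k̄ F`.  For all
extensions `N ⊇ M` of `F` in `Ω`, in particular for `N = M`, there is no section of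
`Gal(N/F) → G_k`. -/
def NoProEllSection (ℓ : ℕ) (a : k) (f : k[X]) : Prop :=
  ∀ (F Ω : Type) [Field F] [Field Ω] [Algebra k F] [Algebra F Ω] [Algebra k Ω]
    [IsScalarTower k F Ω] [IsAlgClosure F Ω] (x y : F), Transcendental k x →
    algebraMap k F a * y ^ ℓ = aeval x f →
    IntermediateField.adjoin k {x, y} = (⊤ : IntermediateField k F) →
    ∀ N : IntermediateField F Ω, proEllField ℓ k F Ω ≤ N → NoSplitting k F Ω N

/-- Some element of the Galois group of `k` fixes no root of `h`. -/
def HasDerangement (h : k[X]) : Prop :=
  ∃ σ : AlgebraicClosure k ≃ₐ[k] AlgebraicClosure k,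
    ∀ θ : AlgebraicClosure k, aeval θ h = 0 → σ θ ≠ θ

/-- The polynomial `g₀(s; x) + t₁ g₁(s; x) + t₂ g₂(s; x)`, where the `gᵢ` are polynomials in `x` whose
coefficients are polynomials in `r` variables. -/
noncomputable def member {r : ℕ} (g : Fin 3 → (MvPolynomial (Fin r) k)[X]) (t₁ t₂ : k)
    (s : Fin r → k) : k[X] :=
  (g 0).map (MvPolynomial.eval s) + C t₁ * (g 1).map (MvPolynomial.eval s) +
    C t₂ * (g 2).map (MvPolynomial.eval s)

/-- The polynomial `g`, with its coefficients regarded as elements of the field `k(s)` of rational
functions in `r` variables. -/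
noncomputable def generic {r : ℕ} (g : (MvPolynomial (Fin r) k)[X]) :
    (FractionRing (MvPolynomial (Fin r) k))[X] :=
  g.map (algebraMap (MvPolynomial (Fin r) k) (FractionRing (MvPolynomial (Fin r) k)))

end curves

/-- The vectors `c = (a, t₁, t₂, s₁, …, s_r)` of elements of `R` that do not have the following
property: `a ≠ 0`, the polynomial `f = g₀ + t₁ g₁ + t₂ g₂` is separable of degree `d`, for all
`n ≥ 1` which are not coprime to `d` the curve `a yⁿ = f(x)` over `k` has neither points nor sections,
and for all prime numbers `ℓ` which divide `d` the geometrically pro-`ℓ` fundamental group of the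
curve `a y^ℓ = f(x)` has no section. -/
def Exceptional (R : Type) [CommRing R] {k : Type} [Field k] [Algebra R k] (d : ℕ) {r : ℕ}
    (g : Fin 3 → (MvPolynomial (Fin r) k)[X]) : Set (Fin (r + 3) → R) :=
  {c | ¬ ∀ (a : k) (f : k[X]), a = algebraMap R k (c 0) →
    f = member g (algebraMap R k (c 1)) (algebraMap R k (c 2))
      (fun j => algebraMap R k (c j.succ.succ.succ)) →
    a ≠ 0 ∧ f.natDegree = d ∧ f.Separable ∧
    (∀ n : ℕ, 0 < n → ¬ Nat.Coprime n d → NoPoint n a f ∧ NoSection n a f) ∧
    ∀ ℓ : ℕ, ℓ.Prime → ℓ ∣ d → NoProEllSection ℓ a f}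

/-- Density zero: for every `ε > 0` there is an ideal `I` of `R` of finite index such that `E` lies
in at most `ε #(R/I)ᴺ` residue classes modulo `I`. -/
def DensityZero {R : Type} [CommRing R] {N : ℕ} (E : Set (Fin N → R)) : Prop :=
  ∀ ε : ℝ, 0 < ε → ∃ I : Ideal R, Finite (R ⧸ I) ∧
    (Set.ncard ((fun (t : Fin N → R) i => Ideal.Quotient.mk I (t i)) '' E) : ℝ) ≤
      ε * (Nat.card (R ⧸ I) : ℝ) ^ N

section proof

lemma iSup_congr_prop {α : Type} [CompleteLattice α] {P Q : α → Prop} (h : ∀ L, P L ↔ Q L) :
    (⨆ L : {L // P L}, L.1) = ⨆ L : {L // Q L}, L.1 := by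
  have h1 : P = Q := funext fun L => propext (h L)
  subst h1
  rfl

lemma proEll_eq (ℓ : ℕ) (k F Ω : Type) [Field k] [Field F] [Field Ω] [Algebra k F] [Algebra F Ω]
    [Algebra k Ω] : proEllField ℓ k F Ω = Pool.Agent.Y157.PS.geomPro ℓ k F Ω := by
  unfold proEllField Pool.Agent.Y157.PS.geomPro maxProEll Pool.Agent.Y157.PS.maxPro
  congr 1
  refine iSup_congr_prop fun L => ?_
  constructor
  · rintro ⟨⟨h1, h2, h3⟩, h4⟩
    refine ⟨⟨h1, h2, h3⟩, fun W hW z hz hz0 => ?_⟩
    obtain ⟨t, ht, h5, h6⟩ := h4 W hW z hz hz0
    exact ⟨t, ht, div_ne_zero hz0 ((_root_.map_ne_zero _).2 ht), h5, h6⟩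
  · rintro ⟨⟨h1, h2, h3⟩, h4⟩
    refine ⟨⟨h1, h2, h3⟩, fun W hW z hz hz0 => ?_⟩
    obtain ⟨t, ht, -, h5, h6⟩ := h4 W hW z hz hz0
    exact ⟨t, ht, h5, h6⟩

lemma of_fine {k : Type} [Field k] (l : ℕ) (a : k) (f : k[X])
    (h : Pool.Agent.Y157.PS.FineP l a f) (n : ℕ) (hn : l ∣ n) (hd : l ∣ f.natDegree) :
    NoPoint n a f ∧ NoSection n a f := by
  obtain ⟨-, h1, h2, h3⟩ := h
  obtain ⟨n', rfl⟩ := hn
  refine ⟨⟨?_, ?_⟩, ?_⟩
  · rintro ⟨x, y, hxy⟩
    apply h2 x (y ^ n')
    rw [← hxy, ← pow_mul, mul_comm n' l]
  · rintro ⟨r, hr⟩
    obtain ⟨e, he⟩ := Nat.dvd_gcd (Dvd.intro n' rfl : l ∣ l * n') hd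
    apply h3 (r ^ e)
    rw [← hr, ← pow_mul, mul_comm e l, he]
  · intro F Ω _ _ _ _ _ _ _ x y U hxy hU
    have hcl : IsAlgClosed Ω := IsAlgClosure.isAlgClosed F
    have halg : Algebra.IsAlgebraic F Ω := IsAlgClosure.isAlgebraic
    have h4 := h1 F Ω U hU x (y ^ n') (by rw [← hxy, ← pow_mul, mul_comm n' l])
    exact ⟨fun s => h4.false ⟨s.toHom, s.cont, s.compat⟩⟩

lemma pro_of_fine {k : Type} [Field k] (ℓ : ℕ) (a : k) (f : k[X])
    (h : Pool.Agent.Y157.PS.FineP ℓ a f) : NoProEllSection ℓ a f := by
  intro F Ω _ _ _ _ _ _ _ x y hx hxy hF N hN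
  have hcl : IsAlgClosed Ω := IsAlgClosure.isAlgClosed F
  have halg : Algebra.IsAlgebraic F Ω := IsAlgClosure.isAlgebraic
  rw [proEll_eq] at hN
  exact ⟨fun s => h.1 F Ω x y hx hxy hF N hN s.toHom s.cont s.compat⟩

lemma member_eq {k : Type} [Field k] {r : ℕ} (g : Fin 3 → (MvPolynomial (Fin r) k)[X]) (t₁ t₂ : k)
    (s : Fin r → k) : member g t₁ t₂ s = Pool.Agent.L0h9.SCF.fmem g s ![t₁, t₂] := by
  rw [member, Pool.Agent.L0h9.SCF.fmem, Pool.Agent.L0h9.SCF.memb, Fin.sum_univ_two, add_assoc]
  rfl

end proof

/-- Let `R` be a domain of characteristic zero that is finitely generated as a ring, with fraction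
field `k`; so `k` is any field finitely generated over `ℚ`.  Let `d ≥ 3`, `r ≥ 0`, and let
`g₀, g₁, g₂` be polynomials in `x` of degree at most `d`, whose coefficients are polynomials over `k`
in `s₁, …, s_r`.  Suppose that `g₀ + t₁ g₁ + t₂ g₂` is separable of degree `d` for at least one choice of
`t₁, t₂, s₁, …, s_r ∈ k`, that `g₀, g₁, g₂` are linearly independent over `k(s)`, and that the ideal
`(g₀, g₁, g₂)` of `k(s)[x]` contains a separable polynomial `h ∈ k[x]` such that some element of
`Gal(k̄/k)` fixes no root of `h` (for instance `h = 1`).  Then for all vectors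
`(a, t₁, t₂, s₁, …, s_r)` of elements of `R` outside a set of density zero, for all `n ≥ 1` which are
not coprime to `d`, the smooth projective curve with the affine equation
`a yⁿ = g₀(s; x) + t₁ g₁(s; x) + t₂ g₂(s; x)` has no point over `k`, and the fundamental groups of its
open subcurves and of all smooth curves over `k` that dominate it have no sections; and for all
prime numbers `ℓ` that divide `d` the geometrically pro-`ℓ` fundamental group of the curve with
`n = ℓ` has no section. -/
theorem result (R : Type) [CommRing R] [IsDomain R] [CharZero R] [Algebra.FiniteType ℤ R]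
    (k : Type) [Field k] [Algebra R k] [IsFractionRing R k] (d r : ℕ) (hd : 3 ≤ d)
    (g : Fin 3 → (MvPolynomial (Fin r) k)[X]) (hdeg : ∀ i, (g i).natDegree ≤ d)
    (hsep : ∃ (t₁ t₂ : k) (s : Fin r → k), (member g t₁ t₂ s).natDegree = d ∧
      (member g t₁ t₂ s).Separable)
    (hli : LinearIndependent (FractionRing (MvPolynomial (Fin r) k)) fun i => generic (g i))
    (h : k[X]) (hh : h.Separable) (hder : HasDerangement h)
    (hmem : generic (h.map MvPolynomial.C) ∈ Ideal.span (Set.range fun i => generic (g i))) :
    DensityZero (Exceptional R d g) := by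
  intro ε hε
  obtain ⟨t₁, t₂, s, h1, h2⟩ := hsep
  rw [member_eq] at h1 h2
  have h3 : generic (h.map MvPolynomial.C) =
      h.map (algebraMap k (FractionRing (MvPolynomial (Fin r) k))) := by
    rw [generic, Polynomial.map_map]
    congr 1
  rw [h3] at hmem
  obtain ⟨I, hI, hIE⟩ := Pool.Agent.L0h9.SCF.famP_density (R := R) d r hd g hdeg
    ⟨s, _, h1, h2⟩ h hh hder hmem hli ε hε
  refine ⟨I, hI, le_trans ?_ hIE⟩
  have hsub : (Exceptional R d g : Set (Fin (r + 3) → R)) ⊆
      {c : Fin (r + 2 + 1) → R | ¬ Pool.Agent.L0h9.SCF.GoodP d g c} := by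
    intro c hc hgood
    apply hc
    intro a f ha hf
    have hf' : f = Pool.Agent.L0h9.SCF.mbP g c := by
      rw [hf, member_eq, Pool.Agent.L0h9.SCF.mbP, Fin.succ_zero_eq_one, Fin.succ_one_eq_two]
    obtain ⟨g1, g2, g3, g4⟩ := hgood
    rw [← hf'] at g2 g3 g4
    rw [← ha] at g1 g4
    refine ⟨g1, g2, g3, fun n hn hnd => ?_, fun ℓ hℓ hℓd => pro_of_fine ℓ a f (g4 ℓ hℓ hℓd)⟩
    obtain ⟨l, hl, hln, hld⟩ := Nat.Prime.not_coprime_iff_dvd.1 hnd
    exact of_fine l a f (g4 l hl hld) n hln (by rw [g2]; exact hld)
  exact_mod_cast Set.ncard_le_ncard (Set.image_mono hsub) (Set.toFinite _)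

end Pool.Agent.Results.MP_c1dca2_ag.TwoLinearParameters
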